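import Mathlib

/-!
Finite certificate used in the disproof of the radicality of the off-diagonal ideal of `X X^T`
(MP_e86c89_ag).  `incT v i` is the vertex-edge incidence matrix of the octahedron (vertices `0..5`,
antipodal pairs `{0,1}, {2,3}, {4,5}`; twelve edges).
-/

set_option autoImplicit false

namespace Pool.Agent.Helper6XXT

/-- vertex-edge incidence of the octahedron -/
def incT (v : Fin 6) (i : Fin 12) : ℤ :=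
  (![![1, 0, 0, 0, 0, 0, 1, 0, 0, 0, 1, 1], ![0, 1, 1, 1, 0, 0, 0, 1, 0, 0, 0, 0],
     ![0, 0, 0, 0, 1, 0, 1, 1, 1, 0, 0, 0], ![1, 1, 0, 0, 0, 1, 0, 0, 0, 1, 0, 0],
     ![0, 0, 1, 0, 0, 0, 0, 0, 1, 1, 1, 0], ![0, 0, 0, 1, 1, 1, 0, 0, 0, 0, 0, 1]] :
     Fin 6 → Fin 12 → ℤ) v i

/-- the product of two `2 × 2` minors of the incidence matrix -/
def sT (q : Fin 6 × Fin 6 × Fin 6 × Fin 6) (k l : Fin 12) : ℤ :=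
  (incT q.1 k * incT q.2.1 l - incT q.1 l * incT q.2.1 k) *
    (incT q.2.2.1 k * incT q.2.2.2 l - incT q.2.2.1 l * incT q.2.2.2 k)

/-- the certificates -/
def certTable : List (List (List (ℤ × Fin 6 × Fin 6 × Fin 6 × Fin 6))) :=
  [[[],
    [(2, 0, 1, 0, 3), (2, 0, 3, 1, 2), (2, 0, 3, 1, 4), (2, 0, 3, 1, 5)],
    [(-2, 0, 4, 1, 3)],
    [(-2, 0, 5, 1, 3)],
    [(-2, 3, 5, 2, 0)],
    [(1, 0, 3, 0, 5), (1, 5, 3, 5, 0), (1, 2, 5, 3, 0), (1, 4, 3, 5, 0), (1, 1, 3, 0, 5), (1, 2, 0, 3, 5)],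
    [(2, 3, 2, 3, 0), (2, 1, 2, 0, 3), (2, 3, 0, 2, 4), (2, 3, 0, 2, 5)],
    [(-2, 0, 2, 1, 3)],
    [(-2, 3, 4, 2, 0)],
    [(1, 0, 3, 0, 4), (1, 4, 3, 4, 0), (1, 2, 4, 3, 0), (1, 5, 3, 4, 0), (1, 1, 3, 0, 4), (1, 2, 0, 3, 4)],
    [(1, 3, 0, 3, 4), (1, 4, 0, 4, 3), (1, 1, 4, 0, 3), (1, 5, 0, 4, 3), (1, 1, 3, 0, 4), (1, 2, 0, 3, 4)],
    [(1, 3, 0, 3, 5), (1, 5, 0, 5, 3), (1, 1, 5, 0, 3), (1, 4, 0, 5, 3), (1, 1, 3, 0, 5), (1, 2, 0, 3, 5)]],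
   [[],
    [],
    [(1, 3, 1, 3, 4), (1, 4, 1, 4, 3), (1, 0, 4, 1, 3), (1, 5, 1, 4, 3), (1, 0, 3, 1, 4), (1, 2, 1, 3, 4)],
    [(1, 3, 1, 3, 5), (1, 5, 1, 5, 3), (1, 0, 5, 1, 3), (1, 4, 1, 5, 3), (1, 0, 3, 1, 5), (1, 2, 1, 3, 5)],
    [(-2, 3, 5, 2, 1)],
    [(1, 1, 3, 1, 5), (1, 5, 3, 5, 1), (1, 2, 5, 3, 1), (1, 4, 3, 5, 1), (1, 0, 3, 1, 5), (1, 2, 1, 3, 5)],
    [(-2, 1, 2, 0, 3)],
    [(2, 3, 2, 3, 1), (2, 0, 2, 1, 3), (2, 3, 1, 2, 4), (2, 3, 1, 2, 5)],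
    [(-2, 3, 4, 2, 1)],
    [(1, 1, 3, 1, 4), (1, 4, 3, 4, 1), (1, 2, 4, 3, 1), (1, 5, 3, 4, 1), (1, 0, 3, 1, 4), (1, 2, 1, 3, 4)],
    [(-2, 1, 4, 0, 3)],
    [(-2, 1, 5, 0, 3)]],
   [[],
    [],
    [],
    [(2, 4, 5, 4, 1), (2, 0, 5, 1, 4), (2, 4, 1, 5, 2), (2, 4, 1, 5, 3)],
    [(-2, 4, 2, 5, 1)],
    [(-2, 4, 3, 5, 1)],
    [(-2, 1, 2, 0, 4)],
    [(1, 4, 1, 4, 2), (1, 2, 1, 2, 4), (1, 0, 2, 1, 4), (1, 3, 1, 2, 4), (1, 0, 4, 1, 2), (1, 5, 1, 4, 2)],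
    [(1, 1, 4, 1, 2), (1, 2, 4, 2, 1), (1, 3, 4, 2, 1), (1, 5, 2, 4, 1), (1, 0, 4, 1, 2), (1, 5, 1, 4, 2)],
    [(1, 1, 4, 1, 3), (1, 3, 4, 3, 1), (1, 2, 4, 3, 1), (1, 5, 3, 4, 1), (1, 0, 4, 1, 3), (1, 5, 1, 4, 3)],
    [(2, 1, 0, 1, 4), (2, 1, 4, 0, 2), (2, 1, 4, 0, 3), (2, 1, 4, 0, 5)],
    [(-2, 1, 5, 0, 4)]],
   [[],
    [],
    [],
    [],
    [(1, 1, 5, 1, 2), (1, 2, 5, 2, 1), (1, 3, 5, 2, 1), (1, 4, 2, 5, 1), (1, 0, 5, 1, 2), (1, 4, 1, 5, 2)],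
    [(1, 1, 5, 1, 3), (1, 3, 5, 3, 1), (1, 2, 5, 3, 1), (1, 4, 3, 5, 1), (1, 0, 5, 1, 3), (1, 4, 1, 5, 3)],
    [(-2, 1, 2, 0, 5)],
    [(1, 5, 1, 5, 2), (1, 2, 1, 2, 5), (1, 0, 2, 1, 5), (1, 3, 1, 2, 5), (1, 0, 5, 1, 2), (1, 4, 1, 5, 2)],
    [(-2, 5, 2, 4, 1)],
    [(-2, 5, 3, 4, 1)],
    [(-2, 1, 4, 0, 5)],
    [(2, 1, 0, 1, 5), (2, 1, 5, 0, 2), (2, 1, 5, 0, 3), (2, 1, 5, 0, 4)]],
   [[],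
    [],
    [],
    [],
    [],
    [(2, 2, 3, 2, 5), (2, 2, 5, 3, 0), (2, 2, 5, 3, 1), (2, 2, 5, 3, 4)],
    [(1, 5, 2, 5, 0), (1, 0, 2, 0, 5), (1, 1, 2, 0, 5), (1, 3, 0, 2, 5), (1, 3, 5, 2, 0), (1, 4, 2, 5, 0)],
    [(1, 5, 2, 5, 1), (1, 1, 2, 1, 5), (1, 0, 2, 1, 5), (1, 3, 1, 2, 5), (1, 3, 5, 2, 1), (1, 4, 2, 5, 1)],
    [(2, 5, 4, 5, 2), (2, 5, 2, 4, 0), (2, 5, 2, 4, 1), (2, 3, 4, 2, 5)],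
    [(-2, 2, 4, 3, 5)],
    [(-2, 5, 0, 4, 2)],
    [(1, 2, 5, 2, 0), (1, 0, 5, 0, 2), (1, 1, 5, 0, 2), (1, 4, 0, 5, 2), (1, 3, 5, 2, 0), (1, 4, 2, 5, 0)]],
   [[],
    [],
    [],
    [],
    [],
    [],
    [(-2, 3, 0, 2, 5)],
    [(-2, 3, 1, 2, 5)],
    [(-2, 3, 4, 2, 5)],
    [(2, 5, 4, 5, 3), (2, 5, 3, 4, 0), (2, 5, 3, 4, 1), (2, 2, 4, 3, 5)],
    [(-2, 5, 0, 4, 3)],
    [(1, 3, 5, 3, 0), (1, 0, 5, 0, 3), (1, 1, 5, 0, 3), (1, 4, 0, 5, 3), (1, 2, 5, 3, 0), (1, 4, 3, 5, 0)]],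
   [[],
    [],
    [],
    [],
    [],
    [],
    [],
    [(2, 0, 1, 0, 2), (2, 0, 2, 1, 3), (2, 0, 2, 1, 4), (2, 0, 2, 1, 5)],
    [(1, 0, 2, 0, 4), (1, 4, 2, 4, 0), (1, 3, 4, 2, 0), (1, 5, 2, 4, 0), (1, 1, 2, 0, 4), (1, 3, 0, 2, 4)],
    [(-2, 2, 4, 3, 0)],
    [(1, 2, 0, 2, 4), (1, 4, 0, 4, 2), (1, 1, 4, 0, 2), (1, 5, 0, 4, 2), (1, 1, 2, 0, 4), (1, 3, 0, 2, 4)],
    [(1, 2, 0, 2, 5), (1, 5, 0, 5, 2), (1, 1, 5, 0, 2), (1, 4, 0, 5, 2), (1, 1, 2, 0, 5), (1, 3, 0, 2, 5)]],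
   [[],
    [],
    [],
    [],
    [],
    [],
    [],
    [],
    [(1, 1, 2, 1, 4), (1, 4, 2, 4, 1), (1, 3, 4, 2, 1), (1, 5, 2, 4, 1), (1, 0, 2, 1, 4), (1, 3, 1, 2, 4)],
    [(-2, 2, 4, 3, 1)],
    [(-2, 1, 4, 0, 2)],
    [(-2, 1, 5, 0, 2)]],
   [[],
    [],
    [],
    [],
    [],
    [],
    [],
    [],
    [],
    [(2, 2, 3, 2, 4), (2, 2, 4, 3, 0), (2, 2, 4, 3, 1), (2, 2, 4, 3, 5)],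
    [(1, 2, 4, 2, 0), (1, 0, 4, 0, 2), (1, 1, 4, 0, 2), (1, 5, 0, 4, 2), (1, 3, 4, 2, 0), (1, 5, 2, 4, 0)],
    [(-2, 4, 0, 5, 2)]],
   [[],
    [],
    [],
    [],
    [],
    [],
    [],
    [],
    [],
    [],
    [(1, 3, 4, 3, 0), (1, 0, 4, 0, 3), (1, 1, 4, 0, 3), (1, 5, 0, 4, 3), (1, 2, 4, 3, 0), (1, 5, 3, 4, 0)],
    [(-2, 4, 0, 5, 3)]],
   [[],
    [],
    [],
    [],
    [],
    [],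
    [],
    [],
    [],
    [],
    [],
    [(2, 4, 5, 4, 0), (2, 1, 5, 0, 4), (2, 4, 0, 5, 2), (2, 4, 0, 5, 3)]],
   [[],
    [],
    [],
    [],
    [],
    [],
    [],
    [],
    [],
    [],
    [],
    []]]

/-- the certificate of a pair of edges -/
def cert (i j : Fin 12) : List (ℤ × Fin 6 × Fin 6 × Fin 6 × Fin 6) :=
  (certTable.getD i.val []).getD j.val []

/-- value of a certificate at a pair of edges -/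
def certVal (c : List (ℤ × Fin 6 × Fin 6 × Fin 6 × Fin 6)) (k l : Fin 12) : ℤ :=
  (c.map fun t => t.1 * sT t.2 k l).sum

theorem cert_ok : ∀ i j : Fin 12, i < j → ∀ k l : Fin 12,
    certVal (cert i j) k l = (if k = i ∧ l = j then 2 else 0) + (if k = j ∧ l = i then 2 else 0) := by
  decide +kernel

end Pool.Agent.Helper6XXT
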