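import Mathlib
import Pool.Agent.Helper6_XXT.Cert

/-!
Core argument for the disproof of the radicality of the off-diagonal ideal of `X X^T` (MP_e86c89_ag):
in a reduced commutative ring there is no orthogonal `12`-tuple of vectors in isotropic coordinates
specialising to the octahedral one over `R = K[a,b,c]/(a^2,b^2,c^2)`.
-/

set_option autoImplicit false

namespace Pool.Agent.Helper6XXT

open Finset

section Abstract

variable {T : Type*} [CommRing T] {ι : Type*} [Fintype ι] [DecidableEq ι] {κ : Type*} [Fintype κ]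

/-- If the vectors `(A i, w i, B i)` are pairwise orthogonal with norms `h i`, then for two
relations `lam`, `mu` among the `A i` one has `(lam·w)(mu·w) = ∑ lam_i mu_i h_i`. -/
theorem ker_mul {A B : ι → κ → T} {w h : ι → T}
    (hG : ∀ i j, ∑ a, (A i a * B j a + B i a * A j a) + w i * w j = if i = j then h i else 0)
    {lam mu : ι → T} (hl : ∀ a, ∑ i, lam i * A i a = 0) (hm : ∀ a, ∑ i, mu i * A i a = 0) :
    (∑ i, lam i * w i) * (∑ i, mu i * w i) = ∑ i, lam i * mu i * h i := by
  have e1 : ∑ i, ∑ j, lam i * mu j *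
      (∑ a, (A i a * B j a + B i a * A j a) + w i * w j) = ∑ i, lam i * mu i * h i := by
    refine Finset.sum_congr rfl fun i _ => ?_
    rw [Finset.sum_eq_single i]
    · rw [hG i i, if_pos rfl]
    · intro j _ hj
      rw [hG i j, if_neg (Ne.symm hj), mul_zero]
    · intro hi; exact absurd (Finset.mem_univ i) hi
  have e3 : ∀ (f g : ι → κ → T), ∑ i, ∑ j, lam i * mu j * ∑ a, f i a * g j a
      = ∑ a, (∑ i, lam i * f i a) * (∑ j, mu j * g j a) := by
    intro f g
    have h1 : ∀ a, (∑ i, lam i * f i a) * (∑ j, mu j * g j a)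
        = ∑ i, ∑ j, lam i * mu j * (f i a * g j a) := by
      intro a
      rw [Finset.sum_mul_sum]
      exact Finset.sum_congr rfl fun i _ => Finset.sum_congr rfl fun j _ => by ring
    simp_rw [h1]
    symm
    rw [Finset.sum_comm]
    refine Finset.sum_congr rfl fun i _ => ?_
    rw [Finset.sum_comm]
    refine Finset.sum_congr rfl fun j _ => ?_
    rw [Finset.mul_sum]
  have e2 : ∑ i, ∑ j, lam i * mu j *
      (∑ a, (A i a * B j a + B i a * A j a) + w i * w j)
      = ∑ a, (∑ i, lam i * A i a) * (∑ j, mu j * B j a) +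
        ∑ a, (∑ i, lam i * B i a) * (∑ j, mu j * A j a)
        + (∑ i, lam i * w i) * (∑ i, mu i * w i) := by
    rw [← e3, ← e3, Finset.sum_mul_sum, ← Finset.sum_add_distrib, ← Finset.sum_add_distrib]
    refine Finset.sum_congr rfl fun i _ => ?_
    rw [← Finset.sum_add_distrib, ← Finset.sum_add_distrib]
    refine Finset.sum_congr rfl fun j _ => ?_
    rw [Finset.sum_add_distrib]
    ring
  rw [← e1, e2]
  simp [hl, hm]

/-- The quadratic relations between the norms: for four relations among the `A i`,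
`∑_{i,j} h_i h_j (lam ∧ rho)_{ij} (mu ∧ nu)_{ij} = 0`. -/
theorem minors_rel {A B : ι → κ → T} {w h : ι → T}
    (hG : ∀ i j, ∑ a, (A i a * B j a + B i a * A j a) + w i * w j = if i = j then h i else 0)
    {lam rho mu nu : ι → T} (hl : ∀ a, ∑ i, lam i * A i a = 0) (hr : ∀ a, ∑ i, rho i * A i a = 0)
    (hm : ∀ a, ∑ i, mu i * A i a = 0) (hn : ∀ a, ∑ i, nu i * A i a = 0) :
    ∑ i, ∑ j, (lam i * rho j - lam j * rho i) * (mu i * nu j - mu j * nu i) * (h i * h j) = 0 := by
  have key : ∑ i, ∑ j, (lam i * rho j - lam j * rho i) * (mu i * nu j - mu j * nu i) * (h i * h j)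
      = (∑ i, lam i * mu i * h i) * (∑ j, rho j * nu j * h j)
        - (∑ i, lam i * nu i * h i) * (∑ j, rho j * mu j * h j)
        - (∑ i, rho i * mu i * h i) * (∑ j, lam j * nu j * h j)
        + (∑ i, rho i * nu i * h i) * (∑ j, lam j * mu j * h j) := by
    simp only [Finset.sum_mul_sum]
    rw [← Finset.sum_sub_distrib, ← Finset.sum_sub_distrib, ← Finset.sum_add_distrib]
    refine Finset.sum_congr rfl fun i _ => ?_
    rw [← Finset.sum_sub_distrib, ← Finset.sum_sub_distrib, ← Finset.sum_add_distrib]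
    refine Finset.sum_congr rfl fun j _ => ?_
    ring
  rw [key, ← ker_mul hG hl hm, ← ker_mul hG hr hn, ← ker_mul hG hl hn, ← ker_mul hG hr hm]
  ring

end Abstract

/-- the matrix of the vectors `A_0` : identity on the first six rows -/
def A0 (i : Fin 12) (a : Fin 6) : ℤ :=
  (![![1, 0, 0, 0, 0, 0], ![0, 1, 0, 0, 0, 0], ![0, 0, 1, 0, 0, 0], ![0, 0, 0, 1, 0, 0],
     ![0, 0, 0, 0, 1, 0], ![0, 0, 0, 0, 0, 1],
     ![-1, 0, 1, 1, 0, 0], ![0, -1, -1, -1, 0, 0], ![1, 1, 0, 0, -1, 0], ![-1, -1, 0, 0, 0, -1],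
     ![0, 0, -1, 0, 1, 1], ![0, 0, 0, -1, -1, -1]] : Fin 12 → Fin 6 → ℤ) i a

/-- row embeddings -/
def rI (k : Fin 6) : Fin 12 := Fin.castAdd 6 k
/-- row embeddings -/
def rE (k : Fin 6) : Fin 12 := Fin.natAdd 6 k

theorem sum_rows {M : Type*} [AddCommMonoid M] (f : Fin 12 → M) :
    ∑ i, f i = ∑ k, f (rI k) + ∑ k, f (rE k) :=
  Fin.sum_univ_add (a := 6) (b := 6) f

section Core

variable {T : Type*} [CommRing T] (A : Fin 12 → Fin 6 → T)

/-- first block -/
def M1 : Matrix (Fin 6) (Fin 6) T := Matrix.of fun k a => A (rI k) a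
/-- second block -/
def M2 : Matrix (Fin 6) (Fin 6) T := Matrix.of fun k a => A (rE k) a
/-- incidence block -/
def MP (T : Type*) [CommRing T] : Matrix (Fin 6) (Fin 6) T :=
  Matrix.of fun v e => ((incT v (rE e) : ℤ) : T)

/-- kernel vectors, first block -/
def Lam0 : Matrix (Fin 6) (Fin 6) T := -(MP T * M2 A * (M1 A).adjugate)
/-- kernel vectors, second block -/
def Lam1 : Matrix (Fin 6) (Fin 6) T := (M1 A).det • MP T

/-- the six relations among the rows of `A` -/
def lam (v : Fin 6) : Fin 12 → T := Fin.append (m := 6) (n := 6) (Lam0 A v) (Lam1 A v)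

theorem lam_rI (v k : Fin 6) : lam A v (rI k) = Lam0 A v k :=
  Fin.append_left (m := 6) (n := 6) _ _ _

theorem lam_rE (v k : Fin 6) : lam A v (rE k) = Lam1 A v k :=
  Fin.append_right (m := 6) (n := 6) _ _ _

theorem lam_ker (v a : Fin 6) : ∑ i, lam A v i * A i a = 0 := by
  rw [sum_rows]
  simp_rw [lam_rI, lam_rE]
  have h1 : ∑ k, Lam0 A v k * A (rI k) a = (Lam0 A * M1 A) v a := by
    rw [Matrix.mul_apply]; rfl
  have h2 : ∑ k, Lam1 A v k * A (rE k) a = (Lam1 A * M2 A) v a := by
    rw [Matrix.mul_apply]; rfl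
  rw [h1, h2, ← Matrix.add_apply]
  have : Lam0 A * M1 A + Lam1 A * M2 A = 0 := by
    rw [Lam0, Lam1, Matrix.neg_mul, Matrix.mul_assoc _ (M1 A).adjugate, Matrix.adjugate_mul,
      Matrix.mul_smul, Matrix.mul_one, Matrix.smul_mul]
    simp
  rw [this]; rfl

end Core

theorem int_block : ∀ v k : Fin 6,
    -(∑ e : Fin 6, incT v (rE e) * A0 (rE e) k) = incT v (rI k) := by decide +kernel

theorem int_id : ∀ k a : Fin 6, A0 (rI k) a = if k = a then 1 else 0 := by decide +kernel

section Eval

variable {T : Type*} [CommRing T] {R : Type*} [CommRing R]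

theorem map_lam (A : Fin 12 → Fin 6 → T) (ψ : T →+* R)
    (hA : ∀ i a, ψ (A i a) = ((A0 i a : ℤ) : R)) (v : Fin 6) (i : Fin 12) :
    ψ (lam A v i) = ((incT v i : ℤ) : R) := by
  have hM1 : ψ.mapMatrix (M1 A) = 1 := by
    ext k a
    simp only [RingHom.mapMatrix_apply, Matrix.map_apply, M1, Matrix.of_apply, hA, int_id]
    rw [Matrix.one_apply]
    split_ifs <;> simp
  have hM2 : ψ.mapMatrix (M2 A) = Matrix.of fun k a => ((A0 (rE k) a : ℤ) : R) := by
    ext k a
    simp only [RingHom.mapMatrix_apply, Matrix.map_apply, M2, Matrix.of_apply, hA]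
  have hMP : ψ.mapMatrix (MP T) = MP R := by
    ext k a
    simp only [RingHom.mapMatrix_apply, Matrix.map_apply, MP, Matrix.of_apply, map_intCast]
  have hL0 : ψ.mapMatrix (Lam0 A) = Matrix.of fun v k => ((incT v (rI k) : ℤ) : R) := by
    rw [Lam0, map_neg, map_mul, map_mul, RingHom.map_adjugate, hM1, hM2, hMP, Matrix.adjugate_one,
      Matrix.mul_one]
    ext v k
    rw [Matrix.neg_apply, Matrix.mul_apply]
    simp only [MP, Matrix.of_apply]
    rw [← int_block]
    push_cast
    rfl
  have hL1 : ψ.mapMatrix (Lam1 A) = MP R := by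
    ext v k
    simp only [RingHom.mapMatrix_apply, Matrix.map_apply, Lam1, Matrix.smul_apply, smul_eq_mul,
      map_mul, RingHom.map_det, hM1, Matrix.det_one, one_mul]
    simp [MP]
  revert i
  have : ∀ j : Fin 6 ⊕ Fin 6, ψ (lam A v (finSumFinEquiv j)) = ((incT v (finSumFinEquiv j) : ℤ) : R) := by
    rintro (k | k)
    · have e : finSumFinEquiv (Sum.inl k : Fin 6 ⊕ Fin 6) = rI k := by
        rw [finSumFinEquiv_apply_left]; rfl
      rw [e, lam_rI]
      have := congrFun (congrFun hL0 v) k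
      simpa using this
    · have e : finSumFinEquiv (Sum.inr k : Fin 6 ⊕ Fin 6) = rE k := by
        rw [finSumFinEquiv_apply_right]; rfl
      rw [e, lam_rE]
      have := congrFun (congrFun hL1 v) k
      simpa [MP] using this
  intro i
  have := this (finSumFinEquiv.symm i)
  rwa [Equiv.apply_symm_apply] at this

end Eval

end Pool.Agent.Helper6XXT
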