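import Mathlib

/-!
An opaque copy of the dual numbers, to build `C[a,b,c]/(a^2,b^2,c^2)` by iteration.
-/

set_option autoImplicit false

namespace Pool.Agent.Helper6XXT

/-- dual numbers over `Q` -/
def DExt (Q : Type) : Type := DualNumber Q

namespace DExt

variable {Q : Type} [CommRing Q]

noncomputable instance : CommRing (DExt Q) := inferInstanceAs (CommRing (DualNumber Q))

/-- constants -/
noncomputable def inlH : Q →+* DExt Q := (TrivSqZeroExt.inlHom Q Q : Q →+* DualNumber Q)

/-- residue -/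
noncomputable def fstH : DExt Q →+* Q :=
  ((TrivSqZeroExt.fstHom Q Q Q : DualNumber Q →ₐ[Q] Q).toRingHom : DualNumber Q →+* Q)

/-- the infinitesimal -/
noncomputable def ep : DExt Q := (DualNumber.eps : DualNumber Q)

theorem ep_mul_ep : (ep : DExt Q) * ep = 0 := (DualNumber.eps_mul_eps : (DualNumber.eps : DualNumber Q) * DualNumber.eps = 0)

theorem fst_inl (x : Q) : fstH (inlH x) = x := rfl

theorem mul_inl_ep_aux (t : DualNumber Q) (m : Q) :
    t * ((TrivSqZeroExt.inl m : DualNumber Q) * DualNumber.eps)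
      = (TrivSqZeroExt.inl (TrivSqZeroExt.fst t * m) : DualNumber Q) * DualNumber.eps := by
  ext <;> simp

theorem mul_inl_ep (t : DExt Q) (m : Q) : t * (inlH m * ep) = inlH (fstH t * m) * ep :=
  mul_inl_ep_aux t m

theorem inl_ep_ne {m : Q} (hm : m ≠ 0) : (inlH m * ep : DExt Q) ≠ 0 := by
  intro h
  apply hm
  have h' : (TrivSqZeroExt.inl m : DualNumber Q) * DualNumber.eps = 0 := h
  have := congrArg TrivSqZeroExt.snd h'
  simpa using this

theorem mul_ep (t : DExt Q) : t * ep = inlH (fstH t) * ep := by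
  have := mul_inl_ep t 1
  rwa [map_one, one_mul, mul_one] at this

end DExt

open DExt

/-- the coefficient ring `C[a,b,c]/(a^2,b^2,c^2)` -/
abbrev R3 : Type := DExt (DExt (DExt ℂ))

/-- the element `a` -/
noncomputable def ea : R3 := inlH (inlH ep)
/-- the element `b` -/
noncomputable def eb : R3 := inlH ep
/-- the element `c` -/
noncomputable def ec : R3 := ep

/-- the inclusion of constants -/
noncomputable def incC : ℂ →+* R3 := (inlH.comp inlH).comp inlH

/-- the residue map -/
noncomputable def resC : R3 →+* ℂ := (fstH.comp fstH).comp fstH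

theorem ea_sq : ea * ea = 0 := by
  unfold ea
  rw [← map_mul, ← map_mul, ep_mul_ep, map_zero, map_zero]

theorem eb_sq : eb * eb = 0 := by
  unfold eb
  rw [← map_mul, ep_mul_ep, map_zero]

theorem ec_sq : ec * ec = 0 := ep_mul_ep

theorem abc_eq : ea * eb * ec = inlH (inlH (ep : DExt ℂ) * ep) * ep := by
  unfold ea eb ec
  rw [map_mul]

theorem ep_ne : (ep : DExt ℂ) ≠ 0 := by
  have := inl_ep_ne (one_ne_zero : (1 : ℂ) ≠ 0)
  rwa [map_one, one_mul] at this

theorem abc_ne : ea * eb * ec ≠ 0 := by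
  rw [abc_eq]
  exact inl_ep_ne (inl_ep_ne ep_ne)

theorem mul_abc (t : R3) (ht : resC t = 0) : t * (ea * eb * ec) = 0 := by
  have h : fstH (fstH (fstH t)) = (0 : ℂ) := ht
  rw [abc_eq, mul_inl_ep, mul_inl_ep, mul_ep (fstH (fstH t)), h]
  simp

theorem res_inc (z : ℂ) : resC (incC z) = z := rfl

end Pool.Agent.Helper6XXT
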