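import Mathlib
import Pool.Agent.Helper6_XXT.Core

/-!
The Nakayama step: near the octahedral point the products `h_i h_j` (`i ≠ j`) of norms vanish.
-/

set_option autoImplicit false

namespace Pool.Agent.Helper6XXT

open Finset

variable {T : Type*} [CommRing T] {K : Type*} [CommRing K]

/-- the ideal generated by the products of two distinct norms -/
def normIdeal (h : Fin 12 → T) : Ideal T :=
  Ideal.span (Set.range fun p : {p : Fin 12 × Fin 12 // p.1 ≠ p.2} => h p.1.1 * h p.1.2)

theorem mem_normIdeal (h : Fin 12 → T) {i j : Fin 12} (hij : i ≠ j) : h i * h j ∈ normIdeal h :=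
  Ideal.subset_span ⟨⟨(i, j), hij⟩, rfl⟩

theorem normIdeal_fg (h : Fin 12 → T) : (normIdeal h).FG :=
  Submodule.fg_span (Set.finite_range _)

theorem quad_mem {A B : Fin 12 → Fin 6 → T} {w h : Fin 12 → T}
    (hG : ∀ i j, ∑ a, (A i a * B j a + B i a * A j a) + w i * w j = if i = j then h i else 0)
    (φ : T →+* K) (hA : ∀ i a, φ (A i a) = ((A0 i a : ℤ) : K))
    (q : Fin 6 × Fin 6 × Fin 6 × Fin 6) :
    ∑ k, ∑ l, ((sT q k l : ℤ) : T) * (h k * h l) ∈ RingHom.ker φ * normIdeal h := by
  set m : Fin 12 → Fin 12 → T := fun k l =>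
    (lam A q.1 k * lam A q.2.1 l - lam A q.1 l * lam A q.2.1 k) *
      (lam A q.2.2.1 k * lam A q.2.2.2 l - lam A q.2.2.1 l * lam A q.2.2.2 k) with hm
  have h0 : ∑ k, ∑ l, m k l * (h k * h l) = 0 :=
    minors_rel hG (lam_ker A _) (lam_ker A _) (lam_ker A _) (lam_ker A _)
  have h1 : ∑ k, ∑ l, ((sT q k l : ℤ) : T) * (h k * h l)
      = ∑ k, ∑ l, (((sT q k l : ℤ) : T) - m k l) * (h k * h l) := by
    rw [← sub_zero (∑ k, ∑ l, ((sT q k l : ℤ) : T) * (h k * h l)), ← h0, ← Finset.sum_sub_distrib]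
    refine Finset.sum_congr rfl fun k _ => ?_
    rw [← Finset.sum_sub_distrib]
    exact Finset.sum_congr rfl fun l _ => by ring
  rw [h1]
  refine Ideal.sum_mem _ fun k _ => Ideal.sum_mem _ fun l _ => ?_
  by_cases hkl : k = l
  · subst hkl
    have e1 : m k k = 0 := by simp only [hm]; ring
    have e2 : sT q k k = 0 := by simp only [sT]; ring
    rw [e1, e2]; simp
  · refine Ideal.mul_mem_mul ?_ (mem_normIdeal h hkl)
    rw [RingHom.mem_ker, map_sub, map_intCast]
    simp only [hm, map_mul, map_sub, map_lam A φ hA, sT]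
    push_cast
    ring

theorem cert_mem {A B : Fin 12 → Fin 6 → T} {w h : Fin 12 → T}
    (hG : ∀ i j, ∑ a, (A i a * B j a + B i a * A j a) + w i * w j = if i = j then h i else 0)
    (φ : T →+* K) (hA : ∀ i a, φ (A i a) = ((A0 i a : ℤ) : K))
    (c : List (ℤ × Fin 6 × Fin 6 × Fin 6 × Fin 6)) :
    ∑ k, ∑ l, ((certVal c k l : ℤ) : T) * (h k * h l) ∈ RingHom.ker φ * normIdeal h := by
  induction c with
  | nil => simp [certVal]
  | cons t c ih =>
    have : ∑ k, ∑ l, ((certVal (t :: c) k l : ℤ) : T) * (h k * h l)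
        = (t.1 : T) * ∑ k, ∑ l, ((sT t.2 k l : ℤ) : T) * (h k * h l)
          + ∑ k, ∑ l, ((certVal c k l : ℤ) : T) * (h k * h l) := by
      rw [Finset.mul_sum, ← Finset.sum_add_distrib]
      refine Finset.sum_congr rfl fun k _ => ?_
      rw [Finset.mul_sum, ← Finset.sum_add_distrib]
      refine Finset.sum_congr rfl fun l _ => ?_
      simp only [certVal, List.map_cons, List.sum_cons]
      push_cast
      ring
    rw [this]
    exact Ideal.add_mem _ (Ideal.mul_mem_left _ _ (quad_mem hG φ hA t.2)) ih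

theorem normIdeal_le {A B : Fin 12 → Fin 6 → T} {w h : Fin 12 → T}
    (hG : ∀ i j, ∑ a, (A i a * B j a + B i a * A j a) + w i * w j = if i = j then h i else 0)
    (φ : T →+* K) (hA : ∀ i a, φ (A i a) = ((A0 i a : ℤ) : K)) {η : T} (hη : 2 * η = 1) :
    normIdeal h ≤ RingHom.ker φ • normIdeal h := by
  have key : ∀ i j : Fin 12, i < j → h i * h j ∈ RingHom.ker φ * normIdeal h := by
    intro i j hij
    have h1 := cert_mem hG φ hA (cert i j)
    have h2 : ∑ k, ∑ l, ((certVal (cert i j) k l : ℤ) : T) * (h k * h l) = 4 * (h i * h j) := by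
      have : ∀ k l, ((certVal (cert i j) k l : ℤ) : T) * (h k * h l)
          = (if k = i then (if l = j then 2 * (h k * h l) else 0) else 0) +
            (if k = j then (if l = i then 2 * (h k * h l) else 0) else 0) := by
        intro k l
        rw [cert_ok i j hij k l]
        push_cast
        rw [add_mul, ite_and, ite_and]
        congr 1 <;> split_ifs <;> simp
      simp_rw [this, Finset.sum_add_distrib]
      simp
      ring
    rw [h2] at h1
    have h3 : h i * h j = η * η * (4 * (h i * h j)) := by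
      have : (4 : T) * (η * η) = 1 := by
        calc (4 : T) * (η * η) = (2 * η) * (2 * η) := by ring
          _ = 1 := by rw [hη]; ring
      calc h i * h j = (4 * (η * η)) * (h i * h j) := by rw [this, one_mul]
        _ = _ := by ring
    rw [h3]
    exact Ideal.mul_mem_left _ _ h1
  rw [smul_eq_mul]
  refine Ideal.span_le.2 ?_
  rintro _ ⟨⟨⟨i, j⟩, hij⟩, rfl⟩
  rcases lt_or_gt_of_ne hij with hlt | hlt
  · exact key i j hlt
  · have := key j i hlt
    change h i * h j ∈ RingHom.ker φ * normIdeal h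
    rw [mul_comm (h i)]
    exact this

/-- The Nakayama step. -/
theorem exists_killer {A B : Fin 12 → Fin 6 → T} {w h : Fin 12 → T}
    (hG : ∀ i j, ∑ a, (A i a * B j a + B i a * A j a) + w i * w j = if i = j then h i else 0)
    (φ : T →+* K) (hA : ∀ i a, φ (A i a) = ((A0 i a : ℤ) : K)) {η : T} (hη : 2 * η = 1) :
    ∃ r : T, φ r = 1 ∧ ∀ i j, i ≠ j → r * (h i * h j) = 0 := by
  obtain ⟨r, hr1, hr2⟩ := Submodule.exists_sub_one_mem_and_smul_eq_zero_of_fg_of_le_smul
    (RingHom.ker φ) (normIdeal h) (normIdeal_fg h) (normIdeal_le hG φ hA hη)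
  refine ⟨r, ?_, fun i j hij => hr2 _ (mem_normIdeal h hij)⟩
  rw [RingHom.mem_ker, map_sub, map_one, sub_eq_zero] at hr1
  exact hr1

/-- The main abstract statement: a reduced ring carrying such an orthogonal system. -/
theorem core_false [IsReduced T] {R : Type*} [CommRing R]
    {A B : Fin 12 → Fin 6 → T} {w h : Fin 12 → T}
    (hG : ∀ i j, ∑ a, (A i a * B j a + B i a * A j a) + w i * w j = if i = j then h i else 0)
    {η : T} (hη : 2 * η = 1)
    (ψ : T →+* R) (π : R →+* K)
    (hA : ∀ i a, ψ (A i a) = ((A0 i a : ℤ) : R))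
    (a b c : R)
    (hw0 : ∀ k, ψ (w (rI k)) = 0) (hw1 : ∀ k, ψ (w (rE k)) = (![a, -a, b, -b, c, -c] : Fin 6 → R) k)
    (hh : ψ (h 0) = -(a * b)) (habc : a * b * c ≠ 0)
    (hπ : ∀ t, π t = 0 → t * (a * b * c) = 0) : False := by
  have hA' : ∀ i a, (π.comp ψ) (A i a) = ((A0 i a : ℤ) : K) := by
    intro i a
    rw [RingHom.comp_apply, hA, map_intCast]
  obtain ⟨r, hr1, hr2⟩ := exists_killer hG (π.comp ψ) hA' hη
  -- the relation with vanishing entry at `0`
  set mu : Fin 12 → T := fun i => lam A 0 0 * lam A 4 i - lam A 4 0 * lam A 0 i with hmu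
  have hmu0 : mu 0 = 0 := by simp only [hmu]; ring
  have hmuker : ∀ a, ∑ i, mu i * A i a = 0 := by
    intro a
    have : ∑ i, mu i * A i a = lam A 0 0 * ∑ i, lam A 4 i * A i a
        - lam A 4 0 * ∑ i, lam A 0 i * A i a := by
      rw [Finset.mul_sum, Finset.mul_sum, ← Finset.sum_sub_distrib]
      exact Finset.sum_congr rfl fun i _ => by simp only [hmu]; ring
    rw [this, lam_ker, lam_ker]; ring
  set g : T := r * h 0 * ∑ i, mu i * w i with hg
  have hsq : (∑ i, mu i * w i) * (∑ i, mu i * w i) = ∑ i, mu i * mu i * h i :=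
    ker_mul hG hmuker hmuker
  have hz : r * h 0 * ((∑ i, mu i * w i) * (∑ i, mu i * w i)) = 0 := by
    rw [hsq, Finset.mul_sum]
    refine Finset.sum_eq_zero fun i _ => ?_
    by_cases hi : i = 0
    · subst hi; rw [hmu0]; ring
    · calc r * h 0 * (mu i * mu i * h i) = mu i * mu i * (r * (h 0 * h i)) := by ring
        _ = 0 := by rw [hr2 0 i (Ne.symm hi)]; ring
  have hg2 : g * g = 0 := by
    calc g * g = (r * h 0) * (r * h 0 * ((∑ i, mu i * w i) * (∑ i, mu i * w i))) := by
          simp only [hg]; ring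
      _ = 0 := by rw [hz]; ring
  have hg0 : g = 0 := by
    have : IsNilpotent g := ⟨2, by rw [pow_two, hg2]⟩
    exact this.eq_zero
  have hψg : ψ g = 0 := by rw [hg0, map_zero]
  -- evaluate
  have hlam : ∀ v i, ψ (lam A v i) = ((incT v i : ℤ) : R) := map_lam A ψ hA
  have hmuval : ∀ i, ψ (mu i) = ((incT 4 i : ℤ) : R) := by
    intro i
    simp only [hmu, map_sub, map_mul, hlam]
    have e1 : incT 0 0 = 1 := by decide
    have e2 : incT 4 0 = 0 := by decide
    rw [e1, e2]; push_cast; ring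
  have hsum : ψ (∑ i, mu i * w i) = c := by
    rw [map_sum, sum_rows]
    simp only [map_mul, hmuval, hw0, hw1, mul_zero, Finset.sum_const_zero, zero_add]
    have e : ∀ k : Fin 6, incT 4 (rE k) = (![0, 0, 1, 1, 1, 0] : Fin 6 → ℤ) k := by decide
    simp only [e, Fin.sum_univ_succ]
    simp
  have hψr : ψ r * (a * b * c) = a * b * c := by
    have : π (ψ r - 1) = 0 := by
      rw [map_sub, map_one, sub_eq_zero]; exact hr1
    have := hπ _ this
    rw [sub_mul, one_mul, sub_eq_zero] at this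
    exact this
  have : ψ g = -(a * b * c) := by
    simp only [hg, map_mul, hsum, hh]
    calc ψ r * -(a * b) * c = -(ψ r * (a * b * c)) := by ring
      _ = _ := by rw [hψr]
  rw [hψg] at this
  exact habc (neg_eq_zero.1 this.symm)

end Pool.Agent.Helper6XXT
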