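import Mathlib
import Pool.Agent.Helper6_XXT.Nak

/-!
The point of the scheme with values in `C[a,b,c]/(a^2,b^2,c^2)`.
-/

set_option autoImplicit false

namespace Pool.Agent.Helper6XXT

open Finset

section Point

variable {R : Type*} [CommRing R] (a b c η J : R)

/-- the norms of the first six vectors -/
def hR (k : Fin 6) : R := (![-(a * b), a * b, -(a * c), a * c, -(b * c), b * c] : Fin 6 → R) k
/-- the `w`-coordinates of the last six vectors -/
def om (k : Fin 6) : R := (![a, -a, b, -b, c, -c] : Fin 6 → R) k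
/-- the sign -/
def sg (i : Fin 12) : ℤ := if i.val < 6 then 1 else -1
/-- A-coordinates -/
def AR (R : Type*) [CommRing R] (i : Fin 12) (k : Fin 6) : R := ((A0 i k : ℤ) : R)
/-- B-coordinates -/
def BR (i : Fin 12) (k : Fin 6) : R := (sg i : R) * η * (A0 i k : R) * hR a b c k
/-- w-coordinates -/
def wR (i : Fin 12) : R := Fin.append (m := 6) (n := 6) (fun _ => (0 : R)) (om a b c) i

theorem wR_rI (k : Fin 6) : wR a b c (rI k) = 0 := Fin.append_left (m := 6) (n := 6) _ _ _
theorem wR_rE (k : Fin 6) : wR a b c (rE k) = om a b c k := Fin.append_right (m := 6) (n := 6) _ _ _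

theorem sg_rI (k : Fin 6) : sg (rI k) = 1 := by
  have : (rI k).val = k.val := rfl
  simp [sg, this]

theorem sg_rE (k : Fin 6) : sg (rE k) = -1 := by
  have : (rE k).val = 6 + k.val := rfl
  simp [sg, this]

theorem row_cases (i : Fin 12) : (∃ k, i = rI k) ∨ (∃ k, i = rE k) := by
  obtain ⟨j, rfl⟩ := (finSumFinEquiv (m := 6) (n := 6)).surjective i
  rcases j with k | k
  · left; exact ⟨k, finSumFinEquiv_apply_left k⟩
  · right; exact ⟨k, finSumFinEquiv_apply_right k⟩

theorem om_rel (ha : a * a = 0) (hb : b * b = 0) (hc : c * c = 0) (k l : Fin 6) (hkl : k ≠ l) :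
    ∑ t, ((A0 (rE k) t : ℤ) : R) * ((A0 (rE l) t : ℤ) : R) * hR a b c t = om a b c k * om a b c l := by
  have e : ∀ k t : Fin 6, A0 (rE k) t =
      (![![-1, 0, 1, 1, 0, 0], ![0, -1, -1, -1, 0, 0], ![1, 1, 0, 0, -1, 0], ![-1, -1, 0, 0, 0, -1],
     ![0, 0, -1, 0, 1, 1], ![0, 0, 0, -1, -1, -1]] : Fin 6 → Fin 6 → ℤ) k t := by decide
  simp only [e, Fin.sum_univ_succ, hR, om]
  fin_cases k <;> fin_cases l <;> simp [ha, hb, hc] at hkl ⊢ <;> ring

theorem gram_zero (ha : a * a = 0) (hb : b * b = 0) (hc : c * c = 0) (hη : 2 * η = 1)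
    (i j : Fin 12) (hij : i ≠ j) :
    ∑ t, (AR R i t * BR a b c η j t + BR a b c η i t * AR R j t)
      + wR a b c i * wR a b c j = 0 := by
  have h1 : ∀ t, AR R i t * BR a b c η j t + BR a b c η i t * AR R j t
      = ((sg i : R) + (sg j : R)) * η * ((A0 i t : R) * (A0 j t : R) * hR a b c t) := by
    intro t
    simp only [AR, BR]; ring
  simp_rw [h1]
  rw [← Finset.mul_sum]
  rcases row_cases i with ⟨k, rfl⟩ | ⟨k, rfl⟩ <;> rcases row_cases j with ⟨l, rfl⟩ | ⟨l, rfl⟩
  · rw [wR_rI, zero_mul, add_zero]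
    have : ∀ t, ((A0 (rI k) t : ℤ) : R) * ((A0 (rI l) t : ℤ) : R) * hR a b c t = 0 := by
      intro t
      have hkl : k ≠ l := fun h => hij (by rw [h])
      rw [int_id, int_id]
      by_cases h1 : k = t
      · have h2 : l ≠ t := fun h => hkl (h1.trans h.symm)
        simp [h2]
      · simp [h1]
    simp [this]
  · rw [wR_rI, sg_rI, sg_rE]; simp
  · rw [wR_rI, sg_rI, sg_rE]; simp
  · have hkl : k ≠ l := fun h => hij (by rw [h])
    rw [wR_rE, wR_rE, sg_rE, sg_rE, om_rel a b c ha hb hc k l hkl]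
    push_cast
    linear_combination (- om a b c k * om a b c l) * hη

theorem gram_diag (hη : 2 * η = 1) :
    ∑ t, (AR R 0 t * BR a b c η 0 t + BR a b c η 0 t * AR R 0 t)
      + wR a b c 0 * wR a b c 0 = -(a * b) := by
  have h1 : ∀ t, AR R 0 t * BR a b c η 0 t + BR a b c η 0 t * AR R 0 t
      = 2 * η * ((A0 0 t : R) * (A0 0 t : R) * hR a b c t) := by
    intro t
    have : sg 0 = 1 := by decide
    simp only [AR, BR, this]; push_cast; ring
  simp_rw [h1]
  rw [← Finset.mul_sum, hη, one_mul]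
  have h2 : wR a b c 0 = 0 := wR_rI a b c 0
  have h3 : ∀ t, A0 0 t = (![1, 0, 0, 0, 0, 0] : Fin 6 → ℤ) t := by decide
  rw [h2]
  simp only [h3, hR, Fin.sum_univ_succ]
  simp

/-- column embeddings -/
def cA (k : Fin 6) : Fin 13 := Fin.castSucc (Fin.castAdd 6 k)
/-- column embeddings -/
def cB (k : Fin 6) : Fin 13 := Fin.castSucc (Fin.natAdd 6 k)
/-- last column -/
def cW : Fin 13 := Fin.last 12

theorem sum_cols {M : Type*} [AddCommMonoid M] (f : Fin 13 → M) :
    ∑ i, f i = ∑ k, f (cA k) + ∑ k, f (cB k) + f cW := by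
  rw [Fin.sum_univ_castSucc]
  congr 1
  exact Fin.sum_univ_add (a := 6) (b := 6) _

/-- the point -/
def val (i : Fin 12) : Fin 13 → R :=
  Fin.snoc (α := fun _ => R)
    (Fin.append (m := 6) (n := 6) (fun t => η * AR R i t + BR a b c η i t)
      (fun t => -J * (η * AR R i t - BR a b c η i t))) (wR a b c i)

theorem val_cA (i : Fin 12) (t : Fin 6) : val a b c η J i (cA t) = η * AR R i t + BR a b c η i t := by
  unfold val cA
  rw [Fin.snoc_castSucc]
  exact Fin.append_left (m := 6) (n := 6) _ _ _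

theorem val_cB (i : Fin 12) (t : Fin 6) :
    val a b c η J i (cB t) = -J * (η * AR R i t - BR a b c η i t) := by
  unfold val cB
  rw [Fin.snoc_castSucc]
  exact Fin.append_right (m := 6) (n := 6) _ _ _

theorem val_cW (i : Fin 12) : val a b c η J i cW = wR a b c i := by
  unfold val cW
  exact Fin.snoc_last _ _

theorem val_dot (hη : 2 * η = 1) (hJ : J * J = -1) (i j : Fin 12) :
    ∑ k, val a b c η J i k * val a b c η J j k
      = ∑ t, (AR R i t * BR a b c η j t + BR a b c η i t * AR R j t) + wR a b c i * wR a b c j := by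
  rw [sum_cols]
  simp only [val_cA, val_cB, val_cW]
  rw [← Finset.sum_add_distrib]
  congr 1
  refine Finset.sum_congr rfl fun t _ => ?_
  linear_combination (AR R i t * BR a b c η j t + BR a b c η i t * AR R j t) * hη +
    ((η * AR R i t - BR a b c η i t) * (η * AR R j t - BR a b c η j t)) * hJ

end Point

end Pool.Agent.Helper6XXT
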